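import Pool.Agent.P8H67.TU.Stm4

/-! Project TU of helper67, package BZ: bounded singular cocycles of degree one are coboundaries. -/

set_option autoImplicit false

namespace Pool.Agent.P8H59.TU

open Pool.Agent.N520.SV (Sx Chain face bdry norm1 BCob)
open unitInterval

variable {M : Type} [TopologicalSpace M]

theorem face_apply {k : ℕ} (i : Fin (k + 2)) (t : Sx k) (j : Fin (k + 2)) :
    (face i t : Sx (k + 1)) j = ∑ l : Fin (k + 1), if i.succAbove l = j then t l else 0 := by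
  show FunOnFinite.linearMap ℝ ℝ i.succAbove t.1 j = _
  rw [FunOnFinite.linearMap_apply_apply, Finset.sum_filter]
  rfl

/-- the homeomorphism of the simplex of dimension one with the unit interval -/
noncomputable abbrev H : Sx 1 ≃ₜ I := stdSimplexHomeomorphUnitInterval

theorem H_coe (s : Sx 1) : ((H s : I) : ℝ) = s 1 := rfl

/-- a path as a singular simplex -/
noncomputable def sxp (f : C(I, M)) : C(Sx 1, M) := f.comp ⟨H, H.continuous⟩

theorem sxp_apply (f : C(I, M)) (s : Sx 1) : sxp f s = f (H s) := rfl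

/-- the map of the triangle -/
noncomputable def cc : C(Sx 2, I) :=
  ⟨fun s => ⟨s 1 / 2 + s 2, by
    have h0 := s.2.1 0
    have h1 := s.2.1 1
    have h2 := s.2.1 2
    have h3 : s 0 + s 1 + s 2 = 1 := by
      have := s.2.2
      rw [Fin.sum_univ_three] at this
      exact this
    have h0' : 0 ≤ s 0 := h0
    have h1' : 0 ≤ s 1 := h1
    have h2' : 0 ≤ s 2 := h2
    constructor
    · show (0 : ℝ) ≤ s 1 / 2 + s 2
      positivity
    · show s 1 / 2 + s 2 ≤ (1 : ℝ)
      linarith⟩, by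
    apply Continuous.subtype_mk
    have e1 : Continuous fun s : Sx 2 => s 1 := (continuous_apply 1).comp continuous_subtype_val
    have e2 : Continuous fun s : Sx 2 => s 2 := (continuous_apply 2).comp continuous_subtype_val
    exact (e1.div_const 2).add e2⟩

theorem cc_coe (s : Sx 2) : ((cc s : I) : ℝ) = s 1 / 2 + s 2 := rfl

theorem sx1_add (s : Sx 1) : s 0 + s 1 = 1 := by
  have := s.2.2
  rw [Fin.sum_univ_two] at this
  exact this

theorem f0 (s : Sx 1) : ((cc (face 0 s) : I) : ℝ) = (1 + s 1) / 2 := by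
  rw [cc_coe, face_apply, face_apply, Fin.sum_univ_two, Fin.sum_univ_two]
  rw [if_pos (by decide), if_neg (by decide), if_neg (by decide), if_pos (by decide)]
  have := sx1_add s
  linarith

theorem f1 (s : Sx 1) : ((cc (face 1 s) : I) : ℝ) = s 1 := by
  rw [cc_coe, face_apply, face_apply, Fin.sum_univ_two, Fin.sum_univ_two]
  rw [if_neg (by decide), if_neg (by decide), if_neg (by decide), if_pos (by decide)]
  ring

theorem f2 (s : Sx 1) : ((cc (face 2 s) : I) : ℝ) = s 1 / 2 := by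
  rw [cc_coe, face_apply, face_apply, Fin.sum_univ_two, Fin.sum_univ_two]
  rw [if_neg (by decide), if_pos (by decide), if_neg (by decide), if_neg (by decide)]
  ring

/-- the value of the cochain on a path -/
noncomputable def Ph (φ : C(Sx 1, M) → ℝ) {x y : M} (γ : Path x y) : ℝ := φ (sxp γ.toContinuousMap)

theorem Ph_trans {φ : C(Sx 1, M) → ℝ}
    (hφ : ∀ τ : C(Sx 2, M), ∑ i : Fin 3, (-1 : ℝ) ^ (i : ℕ) * φ (τ.comp (face i)) = 0)
    {x y z : M} (γ : Path x y) (δ : Path y z) : Ph φ (γ.trans δ) = Ph φ γ + Ph φ δ := by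
  have h := hφ ((γ.trans δ).toContinuousMap.comp cc)
  have e0 : ((γ.trans δ).toContinuousMap.comp cc).comp (face 0) = sxp δ.toContinuousMap := by
    ext s
    show (γ.trans δ) (cc (face 0 s)) = δ (H s)
    have hs := s.2.1 1
    have hs' : 0 ≤ s 1 := hs
    rw [Path.trans_apply]
    split_ifs with hh
    · rw [f0] at hh
      have h1 : s 1 = 0 := by linarith
      have h2 : (⟨2 * ((cc (face 0 s) : I) : ℝ), (unitInterval.mul_pos_mem_iff zero_lt_two).2
          ⟨(cc (face 0 s)).2.1, by rw [f0]; exact hh⟩⟩ : I) = 1 := by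
        apply Subtype.ext
        show 2 * ((cc (face 0 s) : I) : ℝ) = 1
        rw [f0, h1]
        ring
      have h3 : H s = 0 := by
        apply Subtype.ext
        rw [H_coe, h1]
        rfl
      rw [h2, h3, γ.target, δ.source]
    · congr 1
      apply Subtype.ext
      show 2 * ((cc (face 0 s) : I) : ℝ) - 1 = ((H s : I) : ℝ)
      rw [f0, H_coe]
      ring
  have e1 : ((γ.trans δ).toContinuousMap.comp cc).comp (face 1) =
      sxp (γ.trans δ).toContinuousMap := by
    ext s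
    show (γ.trans δ) (cc (face 1 s)) = (γ.trans δ) (H s)
    congr 1
    apply Subtype.ext
    rw [f1, H_coe]
  have e2 : ((γ.trans δ).toContinuousMap.comp cc).comp (face 2) = sxp γ.toContinuousMap := by
    ext s
    show (γ.trans δ) (cc (face 2 s)) = γ (H s)
    have hs : s 1 ≤ 1 := (H s).2.2
    have hh : ((cc (face 2 s) : I) : ℝ) ≤ 1 / 2 := by
      rw [f2]
      linarith
    rw [Path.trans_apply, dif_pos hh]
    congr 1
    apply Subtype.ext
    show 2 * ((cc (face 2 s) : I) : ℝ) = ((H s : I) : ℝ)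
    rw [f2, H_coe]
    ring
  rw [Fin.sum_univ_three, e0, e1, e2] at h
  unfold Ph
  simp only [Fin.val_zero, Fin.val_one, Fin.val_two, pow_zero, pow_one, one_mul] at h
  norm_num at h
  linarith

theorem Ph_refl {φ : C(Sx 1, M) → ℝ}
    (hφ : ∀ τ : C(Sx 2, M), ∑ i : Fin 3, (-1 : ℝ) ^ (i : ℕ) * φ (τ.comp (face i)) = 0) (x : M) :
    Ph φ (Path.refl x) = 0 := by
  have h := Ph_trans hφ (Path.refl x) (Path.refl x)
  rw [Path.refl_trans_refl] at h
  linarith

theorem Ph_loop {φ : C(Sx 1, M) → ℝ} (hb : ∃ C : ℝ, ∀ sg, |φ sg| ≤ C)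
    (hφ : ∀ τ : C(Sx 2, M), ∑ i : Fin 3, (-1 : ℝ) ^ (i : ℕ) * φ (τ.comp (face i)) = 0) {x : M}
    (l : Path x x) : Ph φ l = 0 := by
  have h : ∀ n : ℕ, ∃ p : Path x x, Ph φ p = n * Ph φ l := by
    intro n
    induction n with
    | zero => exact ⟨Path.refl x, by rw [Ph_refl hφ]; simp⟩
    | succ n ih =>
      obtain ⟨p, hp⟩ := ih
      refine ⟨p.trans l, ?_⟩
      rw [Ph_trans hφ, hp]
      push_cast
      ring
  obtain ⟨C, hC⟩ := hb
  by_contra hne
  obtain ⟨n, hn⟩ := exists_nat_gt (C / |Ph φ l|)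
  have hpos : 0 < |Ph φ l| := abs_pos.2 hne
  rw [div_lt_iff₀ hpos] at hn
  obtain ⟨p, hp⟩ := h n
  have h1 : |Ph φ p| ≤ C := hC _
  rw [hp, abs_mul, Nat.abs_cast] at h1
  linarith

theorem Ph_symm {φ : C(Sx 1, M) → ℝ} (hb : ∃ C : ℝ, ∀ sg, |φ sg| ≤ C)
    (hφ : ∀ τ : C(Sx 2, M), ∑ i : Fin 3, (-1 : ℝ) ^ (i : ℕ) * φ (τ.comp (face i)) = 0) {x y : M}
    (γ : Path x y) : Ph φ γ.symm = - Ph φ γ := by
  have h := Ph_loop hb hφ (γ.trans γ.symm)
  rw [Ph_trans hφ] at h
  linarith

theorem Ph_eq {φ : C(Sx 1, M) → ℝ} (hb : ∃ C : ℝ, ∀ sg, |φ sg| ≤ C)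
    (hφ : ∀ τ : C(Sx 2, M), ∑ i : Fin 3, (-1 : ℝ) ^ (i : ℕ) * φ (τ.comp (face i)) = 0)
    {p p' x y : M} (h : p = p') (α : Path p x) (γ : Path x y) (β : Path p' y) :
    Ph φ γ = Ph φ β - Ph φ α := by
  subst h
  have h := Ph_loop hb hφ ((α.trans γ).trans β.symm)
  rw [Ph_trans hφ, Ph_trans hφ, Ph_symm hb hφ] at h
  linarith

/-- the point -/
noncomputable def pt : Sx 0 := stdSimplex.vertex 0

theorem face_pt0 : face (0 : Fin 2) pt = (stdSimplex.vertex 1 : Sx 1) := by
  show stdSimplex.map _ (stdSimplex.vertex 0) = _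
  rw [stdSimplex.map_vertex]
  rfl

theorem face_pt1 : face (1 : Fin 2) pt = (stdSimplex.vertex 0 : Sx 1) := by
  show stdSimplex.map _ (stdSimplex.vertex 0) = _
  rw [stdSimplex.map_vertex]
  rfl

theorem H0 : H.symm 0 = (stdSimplex.vertex 0 : Sx 1) := by
  rw [Homeomorph.symm_apply_eq]
  rfl

theorem H1 : H.symm 1 = (stdSimplex.vertex 1 : Sx 1) := by
  rw [Homeomorph.symm_apply_eq]
  rfl

/-- a singular simplex as a path -/
noncomputable def pth (sg : C(Sx 1, M)) : Path (sg (face (1 : Fin 2) pt)) (sg (face (0 : Fin 2) pt)) where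
  toFun t := sg (H.symm t)
  continuous_toFun := sg.continuous.comp H.symm.continuous
  source' := by rw [face_pt1, H0]
  target' := by rw [face_pt0, H1]

theorem sxp_pth (sg : C(Sx 1, M)) : sxp (pth sg).toContinuousMap = sg := by
  ext s
  show sg (H.symm (H s)) = sg s
  rw [Homeomorph.symm_apply_apply]

/-- package BZ -/
theorem bz_core : ∀ (M : Type) [TopologicalSpace M], BCob 0 M := by
  intro M _ φ hb hφ
  have hφ' : ∀ τ : C(Sx 2, M), ∑ i : Fin 3, (-1 : ℝ) ^ (i : ℕ) * φ (τ.comp (face i)) = 0 := hφ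
  have hq : ∀ x : M, Joined (Quotient.out (s := pathSetoid M) (Quotient.mk _ x)) x := fun x =>
    Quotient.exact (s := pathSetoid M) (Quotient.out_eq _)
  refine ⟨fun τ => Ph φ (hq (τ pt)).somePath, fun sg => ?_⟩
  rw [Fin.sum_univ_two]
  simp only [Fin.val_zero, Fin.val_one, pow_zero, pow_one, one_mul, neg_mul]
  have hj : Joined (sg (face (1 : Fin 2) pt)) (sg (face (0 : Fin 2) pt)) := ⟨pth sg⟩
  have hE : Quotient.out (s := pathSetoid M) (Quotient.mk _ (sg (face (1 : Fin 2) pt))) =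
      Quotient.out (s := pathSetoid M) (Quotient.mk _ (sg (face (0 : Fin 2) pt))) := by
    congr 1
    exact Quotient.sound hj
  have h := Ph_eq hb hφ' hE (hq (sg (face (1 : Fin 2) pt))).somePath (pth sg)
    (hq (sg (face (0 : Fin 2) pt))).somePath
  have h2 : Ph φ (pth sg) = φ sg := by
    unfold Ph
    rw [sxp_pth]
  rw [h2] at h
  rw [h, sub_eq_add_neg]

/-- package BZ -/
theorem bz : Pool.Agent.P8H67.TU.S_BZ := bz_core

end Pool.Agent.P8H59.TU
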